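import Pool.Agent.Lib.MP_ba0fa5_ag.AA.IfaceA

/-!
Module FLU: fundamental lemma, upper bound (from SELB, RANKB, VBND).
-/

set_option autoImplicit false

namespace Pool.Agent.Lib.MP_ba0fa5_ag.AA.H30

open scoped Classical
open Finset Real

theorem cube_le {l : ℝ} (hl : 5 ≤ l) {k : ℝ} (hk : k ≤ 2) : (1 - 1 / l) ^ 3 ≤ 1 - k / l := by
  have hl0 : 0 < l := by linarith
  have h1 : (1 - 1 / l) ^ 3 ≤ 1 - 2 / l := by
    have h2 : 1 - 2 / l - (1 - 1 / l) ^ 3 = (l ^ 2 - 3 * l + 1) / l ^ 3 := by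
      field_simp
      ring
    have h3 : 0 ≤ (l ^ 2 - 3 * l + 1) / l ^ 3 := div_nonneg (by nlinarith) (by positivity)
    linarith
  have h4 : k / l ≤ 2 / l := div_le_div_of_nonneg_right hk hl0.le
  linarith

theorem prod_lower (hV : VbndStmt) : ∃ c₂ : ℝ, 0 < c₂ ∧ ∀ (z : ℕ) (P : Finset ℕ) (Ω : ℕ → Finset ℕ),
    2 ≤ z → (∀ l ∈ P, l.Prime ∧ 5 ≤ l ∧ l ≤ z ∧ (∀ r ∈ Ω l, r < l) ∧ 1 ≤ (Ω l).card ∧ (Ω l).card ≤ 2) →
    c₂ * (log z ^ 3)⁻¹ ≤ ∏ l ∈ P, (1 - ((Ω l).card : ℝ) / l) := by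
  obtain ⟨c, C, hc, hC, hV⟩ := hV
  have hl3 : 0 < log (3 : ℝ) := Real.log_pos (by norm_num)
  have hl2 : 0 < log (2 : ℝ) := Real.log_pos (by norm_num)
  refine ⟨min ((c * log 3) ^ 3) (log 2 ^ 3), lt_min (by positivity) (by positivity), ?_⟩
  intro z P Ω hz hP
  have hz2 : log 2 ≤ log (z : ℝ) := Real.log_le_log (by norm_num) (by exact_mod_cast hz)
  have hlz : 0 < log (z : ℝ) := by linarith
  rcases Nat.lt_or_ge z 5 with h5 | h5
  · have hPe : P = ∅ := by
      rw [Finset.eq_empty_iff_forall_notMem]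
      intro l hl
      have := hP l hl
      omega
    rw [hPe, Finset.prod_empty]
    have h1 : min ((c * log 3) ^ 3) (log 2 ^ 3) ≤ log z ^ 3 :=
      (min_le_right _ _).trans (pow_le_pow_left₀ hl2.le hz2 3)
    rw [← div_eq_mul_inv, div_le_one (by positivity)]
    exact h1
  · have h1 := (hV 3 z (le_refl 3) (by omega)).1
    have h2 : (c * log 3) ^ 3 * (log z ^ 3)⁻¹ ≤ VV 3 z ^ 3 := by
      have : (c * log 3) ^ 3 * (log z ^ 3)⁻¹ = (c * log 3 / log z) ^ 3 := by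
        rw [div_pow, div_eq_mul_inv]
      rw [this]
      exact pow_le_pow_left₀ (by positivity) h1 3
    have hfac : ∀ l : ℕ, 5 ≤ l → 0 ≤ 1 - 1 / (l : ℝ) ∧ 1 - 1 / (l : ℝ) ≤ 1 := by
      intro l hl
      have hl' : (5 : ℝ) ≤ l := by exact_mod_cast hl
      have e1 : 1 / (l : ℝ) ≤ 1 := by rw [div_le_one (by linarith)]; linarith
      have e2 : 0 ≤ 1 / (l : ℝ) := by positivity
      constructor <;> linarith
    have hsub : P ⊆ primesIn 3 z := by
      intro l hl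
      obtain ⟨a1, a2, a3, -⟩ := hP l hl
      unfold primesIn
      rw [Finset.mem_filter, Finset.mem_Ioc]
      exact ⟨⟨by omega, a3⟩, a1⟩
    have hge5 : ∀ l ∈ primesIn 3 z, 5 ≤ l := by
      intro l hl
      unfold primesIn at hl
      rw [Finset.mem_filter, Finset.mem_Ioc] at hl
      obtain ⟨⟨b1, -⟩, b3⟩ := hl
      by_contra hcon
      have : l = 4 := by omega
      subst this
      revert b3
      norm_num
    have h3 : VV 3 z ≤ ∏ l ∈ P, (1 - 1 / (l : ℝ)) := by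
      unfold VV
      rw [← Finset.prod_sdiff hsub]
      refine mul_le_of_le_one_left ?_ ?_
      · exact Finset.prod_nonneg fun l hl => (hfac l (hP l hl).2.1).1
      · refine Finset.prod_le_one (fun l hl => (hfac l (hge5 l (Finset.sdiff_subset hl))).1)
          fun l hl => (hfac l (hge5 l (Finset.sdiff_subset hl))).2
    have hVV0 : 0 ≤ VV 3 z := Finset.prod_nonneg fun l hl => (hfac l (hge5 l hl)).1
    calc min ((c * log 3) ^ 3) (log 2 ^ 3) * (log z ^ 3)⁻¹ ≤ (c * log 3) ^ 3 * (log z ^ 3)⁻¹ :=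
          mul_le_mul_of_nonneg_right (min_le_left _ _) (by positivity)
      _ ≤ VV 3 z ^ 3 := h2
      _ ≤ (∏ l ∈ P, (1 - 1 / (l : ℝ))) ^ 3 := pow_le_pow_left₀ hVV0 h3 3
      _ = ∏ l ∈ P, (1 - 1 / (l : ℝ)) ^ 3 := (Finset.prod_pow _ _ _).symm
      _ ≤ ∏ l ∈ P, (1 - ((Ω l).card : ℝ) / l) := by
          refine Finset.prod_le_prod (fun l hl => pow_nonneg (hfac l (hP l hl).2.1).1 3) fun l hl => ?_
          obtain ⟨-, a2, -, -, -, a6⟩ := hP l hl
          exact cube_le (by exact_mod_cast a2) (by exact_mod_cast a6)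

/-- FLU -/
theorem flu (hS : SelbStmt) (hR : RankbStmt) (hV : VbndStmt) : FluStmt := by
  obtain ⟨C₁, hR⟩ := hR
  obtain ⟨c₂, hc₂, hlow⟩ := prod_lower hV
  obtain ⟨B₁, hB₁⟩ := exists_nat_ge (8 * (C₁ + 2))
  refine ⟨max 12 B₁, 1 / 8, 2 * exp (C₁ + 1) + 1 / c₂, by norm_num, by positivity, ?_⟩
  intro z M hz hzM P Ω hP
  have hl2 : 0.6931471803 < log (2 : ℝ) := Real.log_two_gt_d9
  have hz2 : log 2 ≤ log (z : ℝ) := Real.log_le_log (by norm_num) (by exact_mod_cast hz)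
  have hlz : 0 < log (z : ℝ) := by linarith
  have hz1 : (2 : ℝ) ≤ z := by exact_mod_cast hz
  have hM1 : 1 ≤ M := le_trans (Nat.one_le_pow _ _ (by omega)) hzM
  have hM0 : (0 : ℝ) < M := by exact_mod_cast hM1
  have hlM : 0 ≤ log (M : ℝ) := Real.log_nonneg (by exact_mod_cast hM1)
  set s : ℝ := log M / log z with hs
  have hsz : s * log z = log M := by rw [hs]; field_simp
  have hsB : (max 12 B₁ : ℕ) ≤ s := by
    rw [hs, le_div_iff₀ hlz, ← Real.log_pow]
    refine Real.log_le_log (by positivity) ?_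
    exact_mod_cast hzM
  have hs12 : (12 : ℝ) ≤ s := le_trans (by exact_mod_cast le_max_left 12 B₁) hsB
  have hsC : 8 * (C₁ + 2) ≤ s := le_trans hB₁ (le_trans (by exact_mod_cast le_max_right 12 B₁) hsB)
  -- `D`
  set x : ℝ := exp (log M / 8) with hx
  have hx1 : 1 ≤ x := Real.one_le_exp (by positivity)
  set D : ℕ := ⌊x⌋₊ with hD
  have hD1 : 1 ≤ D := (Nat.one_le_floor_iff x).mpr hx1
  have hD1' : (1 : ℝ) ≤ D := by exact_mod_cast hD1
  have hDx : (D : ℝ) ≤ x := Nat.floor_le (by linarith)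
  have hxD : x < D + 1 := Nat.lt_floor_add_one x
  have hD4 : (D : ℝ) ^ 4 ≤ exp (log M / 2) := by
    calc (D : ℝ) ^ 4 ≤ x ^ 4 := pow_le_pow_left₀ (by linarith) hDx 4
      _ = exp (log M / 2) := by
        rw [hx, ← Real.exp_nat_mul]; congr 1; push_cast; ring
  have hlogD : log M / 8 - log 2 ≤ log D := by
    have h1 : x / 2 ≤ D := by linarith
    have h2 : log (x / 2) ≤ log D := Real.log_le_log (by positivity) h1
    rwa [Real.log_div (by positivity) (by norm_num), hx, Real.log_exp] at h2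
  have hE1 : C₁ - log D / log z ≤ C₁ + 1 - s / 8 := by
    have h1 : s / 8 - 1 ≤ log D / log z := by
      rw [le_div_iff₀ hlz]
      have : (s / 8 - 1) * log z = log M / 8 - log z := by rw [← hsz]; ring
      rw [this]
      linarith
    linarith
  set E : ℝ := exp (C₁ + 1 - s / 8) with hE
  have hE0 : 0 < E := Real.exp_pos _
  have hEhalf : E ≤ 1 / 2 := by
    have h1 : E ≤ exp (-1) := Real.exp_le_exp.mpr (by linarith)
    have h2 : exp (-1) < 1 / 2 := by
      have := Real.exp_neg_one_lt_d9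
      linarith
    linarith
  -- the product
  set Pi : ℝ := ∏ l ∈ P, (1 - ((Ω l).card : ℝ) / l) with hPi
  have hfacpos : ∀ l ∈ P, 0 < 1 - ((Ω l).card : ℝ) / l := by
    intro l hl
    obtain ⟨-, a2, -, -, -, a6⟩ := hP l hl
    have h1 : (5 : ℝ) ≤ l := by exact_mod_cast a2
    have h2 : ((Ω l).card : ℝ) ≤ 2 := by exact_mod_cast a6
    have h3 : ((Ω l).card : ℝ) / l < 1 := by rw [div_lt_one (by linarith)]; linarith
    linarith
  have hPi0 : 0 < Pi := Finset.prod_pos hfacpos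
  have hP' : ∀ l ∈ P, l.Prime ∧ (∀ r ∈ Ω l, r < l) ∧ (Ω l).card ≤ 2 ∧ 1 ≤ (Ω l).card ∧ (Ω l).card < l := by
    intro l hl
    obtain ⟨a1, a2, a3, a4, a5, a6⟩ := hP l hl
    exact ⟨a1, a4, a6, a5, by omega⟩
  have h1 := hS P Ω M D hD1 hP'
  have h2 := hR z D hz hD1 P (fun l => ((Ω l).card : ℝ) / (l - (Ω l).card)) (by
    intro l hl
    obtain ⟨a1, a2, a3, a4, a5, a6⟩ := hP l hl
    have b1 : (5 : ℝ) ≤ l := by exact_mod_cast a2
    have b2 : ((Ω l).card : ℝ) ≤ 2 := by exact_mod_cast a6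
    have b3 : (0 : ℝ) ≤ ((Ω l).card : ℝ) := Nat.cast_nonneg _
    refine ⟨a1, a3, div_nonneg b3 (by linarith), ?_⟩
    rw [div_le_div_iff₀ (by linarith) (by linarith)]
    nlinarith)
  have h3 : ∏ l ∈ P, (1 + ((Ω l).card : ℝ) / (l - (Ω l).card)) = Pi⁻¹ := by
    rw [hPi, ← Finset.prod_inv_distrib]
    refine Finset.prod_congr rfl fun l hl => ?_
    obtain ⟨-, a2, -, -, -, a6⟩ := hP l hl
    have b1 : (5 : ℝ) ≤ l := by exact_mod_cast a2
    have b2 : ((Ω l).card : ℝ) ≤ 2 := by exact_mod_cast a6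
    have b3 : (l : ℝ) - (Ω l).card ≠ 0 := by
      intro h; linarith
    have b4 : (l : ℝ) ≠ 0 := by linarith
    field_simp
    ring
  rw [h3] at h2
  set G : ℝ := ∑ s ∈ sfs P D, ∏ l ∈ s.primeFactors, ((Ω l).card : ℝ) / (l - (Ω l).card) with hG
  have h4 : (1 - E) * Pi⁻¹ ≤ G := by
    refine le_trans (mul_le_mul_of_nonneg_right ?_ (by positivity)) h2
    have := Real.exp_le_exp.mpr hE1
    linarith
  have hG0 : 0 < G := lt_of_lt_of_le (mul_pos (by linarith) (inv_pos.mpr hPi0)) h4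
  have h5 : (M : ℝ) / G ≤ (1 + 2 * E) * M * Pi := by
    rw [div_le_iff₀ hG0]
    have h6 : (1 + 2 * E) * (1 - E) ≥ 1 := by nlinarith
    have h7 : (1 + 2 * E) * M * Pi * ((1 - E) * Pi⁻¹) ≤ (1 + 2 * E) * M * Pi * G :=
      mul_le_mul_of_nonneg_left h4 (by positivity)
    have h8 : (1 + 2 * E) * M * Pi * ((1 - E) * Pi⁻¹) = ((1 + 2 * E) * (1 - E)) * M := by
      field_simp
    rw [h8] at h7
    nlinarith
  -- the error term
  have h6 : exp (log M / 2) ≤ 1 / c₂ * exp (-(1 / 8) * s) * M * Pi := by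
    have e1 := hlow z P Ω hz hP
    rw [← hPi] at e1
    have e2 : exp (log M / 2) = exp (- (log M / 2)) * M := by
      nth_rewrite 3 [← Real.exp_log hM0]
      rw [← Real.exp_add]; congr 1; ring
    have e3 : exp (- (log M / 2)) ≤ exp (-(1 / 8) * s) * (log z ^ 3)⁻¹ := by
      have f1 : (log z ^ 3)⁻¹ ≥ exp (-(3 * log z)) := by
        rw [Real.exp_neg]
        refine inv_anti₀ (by positivity) ?_
        have : exp (3 * log z) = (z : ℝ) ^ 3 := by
          rw [show (3 : ℝ) * log z = log ((z : ℝ) ^ 3) by rw [Real.log_pow]; norm_num,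
            Real.exp_log (by positivity)]
        rw [this]
        refine pow_le_pow_left₀ hlz.le ?_ 3
        have := Real.log_le_sub_one_of_pos (show (0 : ℝ) < z by linarith)
        linarith
      refine le_trans ?_ (mul_le_mul_of_nonneg_left f1 (Real.exp_pos _).le)
      rw [← Real.exp_add]
      refine Real.exp_le_exp.mpr ?_
      rw [← hsz]
      nlinarith
    have e4 : (log z ^ 3)⁻¹ ≤ 1 / c₂ * Pi := by
      rw [div_mul_eq_mul_div, le_div_iff₀ hc₂]
      linarith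
    rw [e2]
    calc exp (- (log M / 2)) * M ≤ exp (-(1 / 8) * s) * (log z ^ 3)⁻¹ * M :=
          mul_le_mul_of_nonneg_right e3 hM0.le
      _ ≤ exp (-(1 / 8) * s) * (1 / c₂ * Pi) * M :=
          mul_le_mul_of_nonneg_right (mul_le_mul_of_nonneg_left e4 (Real.exp_pos _).le) hM0.le
      _ = 1 / c₂ * exp (-(1 / 8) * s) * M * Pi := by ring
  have h7 : E = exp (C₁ + 1) * exp (-(1 / 8) * s) := by
    rw [hE, ← Real.exp_add]; congr 1; ring
  calc (((range M).filter (fun w => ∀ l ∈ P, w % l ∉ Ω l)).card : ℝ) ≤ M / G + (D : ℝ) ^ 4 := by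
        convert h1 using 3
    _ ≤ (1 + 2 * E) * M * Pi + 1 / c₂ * exp (-(1 / 8) * s) * M * Pi := by linarith
    _ = (1 + (2 * exp (C₁ + 1) + 1 / c₂) * exp (-(1 / 8) * s)) * M * Pi := by rw [h7]; ring

end Pool.Agent.Lib.MP_ba0fa5_ag.AA.H30
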