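import Pool.Agent.Lib.MP_ba0fa5_ag.AA.IfaceA
import Pool.Agent.Lib.MP_ba0fa5_ag.H48.NSIEVE

/-!
Module SELB: Selberg's sieve with the sharp weights (adapted from `H48/NSIEVE.lean`).
-/

set_option autoImplicit false

namespace Pool.Agent.Lib.MP_ba0fa5_ag.AA.H30

open Finset Pool.Agent.Lib.MP_ba0fa5_ag.H48

/-- the sieve, with sets of primes -/
theorem sieve_sets_sharp (Ω : ℕ → Finset ℕ) (M : ℕ) (P : Finset ℕ) (𝒟 : Finset (Finset ℕ))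
    (hP : ∀ l ∈ P, l.Prime ∧ (∀ r ∈ Ω l, r < l) ∧ 1 ≤ (Ω l).card ∧ (Ω l).card < l)
    (h𝒟 : ∀ A ∈ 𝒟, A ⊆ P) (hdown : ∀ A ∈ 𝒟, ∀ B ⊆ A, B ∈ 𝒟) (hempty : ∅ ∈ 𝒟) :
    (((range M).filter (fun w => ∀ l ∈ P, w % l ∉ Ω l)).card : ℝ) ≤
      M / (∑ A ∈ 𝒟, ∏ l ∈ A, ((Ω l).card : ℝ) / (l - (Ω l).card)) +
        ∑ A ∈ 𝒟, ∑ B ∈ 𝒟, ∏ l ∈ A ∪ B, ((Ω l).card : ℝ) := by
  obtain ⟨ν, hνdef⟩ : ∃ ν : ℕ → ℝ, ∀ l, ν l = ((Ω l).card : ℝ) / l := ⟨_, fun l => rfl⟩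
  obtain ⟨g, hgdef⟩ : ∃ g : ℕ → ℝ, ∀ l, g l = ν l / (1 - ν l) := ⟨_, fun l => rfl⟩
  have hν0 : ∀ l ∈ P, 0 < ν l ∧ ν l < 1 := by
    intro l hl
    obtain ⟨h1, -, h3, h4⟩ := hP l hl
    have hl0 : (0 : ℝ) < l := by exact_mod_cast h1.pos
    rw [hνdef]
    exact ⟨div_pos (by exact_mod_cast h3) hl0, (div_lt_one hl0).2 (by exact_mod_cast h4)⟩
  have hν : ∀ A ∈ 𝒟, ∀ l ∈ A, 0 < ν l := fun A hA l hl => (hν0 l (h𝒟 A hA hl)).1
  have hg : ∀ A ∈ 𝒟, ∀ l ∈ A, 0 < g l := by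
    intro A hA l hl
    obtain ⟨h1, h2⟩ := hν0 l (h𝒟 A hA hl)
    rw [hgdef]
    exact div_pos h1 (by linarith)
  have hgν : ∀ A ∈ 𝒟, ∀ l ∈ A, 1 + (g l)⁻¹ = (ν l)⁻¹ := by
    intro A hA l hl
    obtain ⟨h1, h2⟩ := hν0 l (h𝒟 A hA hl)
    have h3 : 1 - ν l ≠ 0 := by linarith
    rw [hgdef, inv_div]
    field_simp
    ring
  have hpos : ∀ C ∈ 𝒟, 0 < ∏ l ∈ C, g l := fun C hC => Finset.prod_pos fun l hl => hg C hC l hl
  have hJ : 0 < J 𝒟 g := Finset.sum_pos hpos ⟨∅, hempty⟩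
  -- the weights
  obtain ⟨w, hw⟩ : ∃ w : Finset ℕ → ℝ, w = lam 𝒟 ν g := ⟨_, rfl⟩
  have hw0 : w ∅ = 1 := by rw [hw]; exact lam_empty hJ.ne'
  have hw1 : ∀ A ∈ 𝒟, |w A| ≤ 1 := by
    intro A hA
    rw [hw]
    exact abs_lam_le hdown hg hν hgν hJ hA
  have hw2 : ∑ A ∈ 𝒟, ∑ B ∈ 𝒟, w A * w B * ∏ l ∈ A ∪ B, ν l = 1 / J 𝒟 g := by
    rw [hw]
    exact main_term hdown hg hν hgν hJ
  -- the upper bound of the indicator function
  have h1 : (((range M).filter (fun w => ∀ l ∈ P, w % l ∉ Ω l)).card : ℝ) ≤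
      ∑ x ∈ range M, (∑ A ∈ 𝒟, if (∀ l ∈ A, x % l ∈ Ω l) then w A else 0) ^ 2 := by
    rw [Finset.card_filter]
    push_cast
    refine Finset.sum_le_sum fun x _ => ?_
    split_ifs with hx
    · have e1 : ∑ A ∈ 𝒟, (if (∀ l ∈ A, x % l ∈ Ω l) then w A else 0) = w ∅ := by
        rw [Finset.sum_eq_single_of_mem ∅ hempty]
        · rw [if_pos]
          intro l hl
          exact absurd hl (Finset.notMem_empty l)
        · intro A hA hne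
          rw [if_neg]
          intro h2
          obtain ⟨l, hl⟩ := Finset.nonempty_iff_ne_empty.2 hne
          exact hx l (h𝒟 A hA hl) (h2 l hl)
      rw [e1, hw0, one_pow]
    · exact sq_nonneg _
  -- expansion
  have h2 : ∑ x ∈ range M, (∑ A ∈ 𝒟, if (∀ l ∈ A, x % l ∈ Ω l) then w A else 0) ^ 2 =
      ∑ A ∈ 𝒟, ∑ B ∈ 𝒟, w A * w B *
        (((range M).filter (fun x => ∀ l ∈ A ∪ B, x % l ∈ Ω l)).card : ℝ) := by
    have e1 : ∀ x ∈ range M, (∑ A ∈ 𝒟, if (∀ l ∈ A, x % l ∈ Ω l) then w A else 0) ^ 2 =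
        ∑ A ∈ 𝒟, ∑ B ∈ 𝒟, w A * w B * (if (∀ l ∈ A ∪ B, x % l ∈ Ω l) then 1 else 0) := by
      intro x _
      rw [sq, Finset.sum_mul_sum]
      refine Finset.sum_congr rfl fun A _ => Finset.sum_congr rfl fun B _ => ?_
      by_cases hA : ∀ l ∈ A, x % l ∈ Ω l
      · by_cases hB : ∀ l ∈ B, x % l ∈ Ω l
        · rw [if_pos hA, if_pos hB, if_pos, mul_one]
          intro l hl
          rcases Finset.mem_union.1 hl with h | h
          · exact hA l h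
          · exact hB l h
        · have hAB : ¬ ∀ l ∈ A ∪ B, x % l ∈ Ω l := fun h =>
            hB fun l hl => h l (Finset.mem_union_right _ hl)
          rw [if_neg hB, if_neg hAB, mul_zero, mul_zero]
      · have hAB : ¬ ∀ l ∈ A ∪ B, x % l ∈ Ω l := fun h =>
          hA fun l hl => h l (Finset.mem_union_left _ hl)
        rw [if_neg hA, if_neg hAB, mul_zero, zero_mul]
    rw [Finset.sum_congr rfl e1, Finset.sum_comm]
    refine Finset.sum_congr rfl fun A _ => ?_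
    rw [Finset.sum_comm]
    refine Finset.sum_congr rfl fun B _ => ?_
    rw [← Finset.mul_sum, Finset.card_filter]
    push_cast
    rfl
  -- the error term
  have h3 : ∀ A ∈ 𝒟, ∀ B ∈ 𝒟, w A * w B *
      (((range M).filter (fun x => ∀ l ∈ A ∪ B, x % l ∈ Ω l)).card : ℝ) ≤
      (M : ℝ) * (w A * w B * ∏ l ∈ A ∪ B, ν l) + ∏ l ∈ A ∪ B, ((Ω l).card : ℝ) := by
    intro A hA B hB
    have hAB : ∀ l ∈ A ∪ B, l ∈ P := fun l hl => by
      rcases Finset.mem_union.1 hl with h | h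
      · exact h𝒟 A hA h
      · exact h𝒟 B hB h
    have e1 := count_hit' Ω M (A ∪ B) fun l hl => ⟨(hP l (hAB l hl)).1, (hP l (hAB l hl)).2.1⟩
    have e2 : ∏ l ∈ A ∪ B, ((Ω l).card : ℝ) / l = ∏ l ∈ A ∪ B, ν l :=
      Finset.prod_congr rfl fun l _ => (hνdef l).symm
    rw [e2] at e1
    have e3 : |w A * w B| ≤ 1 := by
      rw [abs_mul]
      exact mul_le_one₀ (hw1 A hA) (abs_nonneg _) (hw1 B hB)
    have e4 : |w A * w B * ((((range M).filter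
        (fun x => ∀ l ∈ A ∪ B, x % l ∈ Ω l)).card : ℝ) - (M : ℝ) * ∏ l ∈ A ∪ B, ν l)| ≤
        ∏ l ∈ A ∪ B, ((Ω l).card : ℝ) := by
      rw [abs_mul]
      calc |w A * w B| * _ ≤ 1 * ∏ l ∈ A ∪ B, ((Ω l).card : ℝ) :=
            mul_le_mul e3 e1 (abs_nonneg _) zero_le_one
        _ = _ := one_mul _
    have e5 := (le_abs_self _).trans e4
    linarith [e5]
  -- conclusion
  have h4 : ∑ A ∈ 𝒟, ∑ B ∈ 𝒟, w A * w B *
      (((range M).filter (fun x => ∀ l ∈ A ∪ B, x % l ∈ Ω l)).card : ℝ) ≤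
      (M : ℝ) * (1 / J 𝒟 g) + ∑ A ∈ 𝒟, ∑ B ∈ 𝒟, ∏ l ∈ A ∪ B, ((Ω l).card : ℝ) := by
    rw [← hw2, Finset.mul_sum, ← Finset.sum_add_distrib]
    refine Finset.sum_le_sum fun A hA => ?_
    rw [Finset.mul_sum, ← Finset.sum_add_distrib]
    exact Finset.sum_le_sum fun B hB => h3 A hA B hB
  have h5 : (M : ℝ) * (1 / J 𝒟 g) = M / (∑ A ∈ 𝒟, ∏ l ∈ A, ((Ω l).card : ℝ) / (l - (Ω l).card)) := by
    have e1 : ∑ A ∈ 𝒟, ∏ l ∈ A, ((Ω l).card : ℝ) / (l - (Ω l).card) = J 𝒟 g := by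
      refine Finset.sum_congr rfl fun A hA => Finset.prod_congr rfl fun l hl => ?_
      obtain ⟨h1, h2⟩ := hν0 l (h𝒟 A hA hl)
      have hl0 : (0 : ℝ) < l := by exact_mod_cast (hP l (h𝒟 A hA hl)).1.pos
      rw [hgdef]
      have h3 : 1 - ν l ≠ 0 := by linarith
      have h4 : (l : ℝ) - (Ω l).card ≠ 0 := by
        have : ((Ω l).card : ℝ) < l := by exact_mod_cast (hP l (h𝒟 A hA hl)).2.2.2
        linarith
      rw [div_eq_div_iff h4 h3, hνdef]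
      field_simp
    rw [e1, mul_one_div]
  linarith [h1, h2, h4, h5]

/-- SELB -/
theorem selb : SelbStmt := by
  intro P Ω M D hD hP
  have hpr : ∀ l ∈ P, l.Prime := fun l hl => (hP l hl).1
  have hsub : ∀ A ∈ fam P D, A ⊆ P := fun A hA =>
    Finset.mem_powerset.1 (Finset.mem_filter.1 hA).1
  have hdown : ∀ A ∈ fam P D, ∀ B ⊆ A, B ∈ fam P D := by
    intro A hA B hBA
    rw [fam, Finset.mem_filter, Finset.mem_powerset] at hA ⊢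
    refine ⟨hBA.trans hA.1, le_trans ?_ hA.2⟩
    exact Finset.prod_le_prod_of_subset_of_one_le' hBA fun l hl _ => (hpr l (hA.1 hl)).one_le
  have hempty : ∅ ∈ fam P D := by
    rw [fam, Finset.mem_filter]
    exact ⟨Finset.empty_mem_powerset P, by simpa using hD⟩
  have h1 := sieve_sets_sharp Ω M P (fam P D) (fun l hl => ⟨(hP l hl).1, (hP l hl).2.1,
    (hP l hl).2.2.2.1, (hP l hl).2.2.2.2⟩) hsub hdown hempty
  rw [← sum_sfs P hpr D (fun l => ((Ω l).card : ℝ) / (l - (Ω l).card))] at h1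
  -- the error term
  have h2 : ∀ A ∈ fam P D, ∀ B ∈ fam P D, ∏ l ∈ A ∪ B, ((Ω l).card : ℝ) ≤
      (∏ l ∈ A, (l : ℝ)) * ∏ l ∈ B, (l : ℝ) := by
    intro A hA B hB
    have hAB : ∀ l ∈ A ∪ B, l ∈ P := fun l hl => by
      rcases Finset.mem_union.1 hl with h | h
      · exact hsub A hA h
      · exact hsub B hB h
    have e1 : ∏ l ∈ A ∪ B, ((Ω l).card : ℝ) ≤ ∏ l ∈ A ∪ B, (l : ℝ) :=
      Finset.prod_le_prod (fun l _ => Nat.cast_nonneg _) fun l hl => by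
        exact_mod_cast (hP l (hAB l hl)).2.2.2.2.le
    have e2 : 1 ≤ ∏ l ∈ A ∩ B, (l : ℝ) := by
      have e3 : 1 ≤ ∏ l ∈ A ∩ B, l := Finset.one_le_prod' fun l hl =>
        (hpr l (hsub A hA (Finset.inter_subset_left hl))).one_le
      rw [← Nat.cast_prod]
      exact_mod_cast e3
    have e4 := Finset.prod_union_inter (s₁ := A) (s₂ := B) (f := fun l => (l : ℝ))
    have e5 : (0 : ℝ) ≤ ∏ l ∈ A ∪ B, (l : ℝ) := Finset.prod_nonneg fun l _ => Nat.cast_nonneg l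
    rw [← e4]
    nlinarith [mul_le_mul_of_nonneg_left e2 e5]
  have h3 : ∑ A ∈ fam P D, ∏ l ∈ A, (l : ℝ) ≤ (D : ℝ) ^ 2 := by
    have e1 : ∑ A ∈ fam P D, ∏ l ∈ A, (l : ℝ) = ∑ s ∈ sfs P D, (s : ℝ) := by
      rw [← sum_sfs P hpr D (fun l => (l : ℝ))]
      refine Finset.sum_congr rfl fun s hs => ?_
      rw [← Nat.cast_prod, Nat.prod_primeFactors_of_squarefree (mem_sfs.1 hs).2.1]
    rw [e1]
    calc ∑ s ∈ sfs P D, (s : ℝ) ≤ ∑ s ∈ Finset.Icc 1 D, (s : ℝ) :=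
          Finset.sum_le_sum_of_subset_of_nonneg (sfs_subset P D) fun s _ _ =>
            Nat.cast_nonneg s
      _ ≤ ∑ s ∈ Finset.Icc 1 D, (D : ℝ) := Finset.sum_le_sum fun s hs => by
          exact_mod_cast (Finset.mem_Icc.1 hs).2
      _ = (D : ℝ) ^ 2 := by
          rw [Finset.sum_const, Nat.card_Icc, nsmul_eq_mul, sq]
          simp
  have h4 : ∑ A ∈ fam P D, ∑ B ∈ fam P D, ∏ l ∈ A ∪ B, ((Ω l).card : ℝ) ≤ (D : ℝ) ^ 4 := by
    calc ∑ A ∈ fam P D, ∑ B ∈ fam P D, ∏ l ∈ A ∪ B, ((Ω l).card : ℝ) ≤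
        ∑ A ∈ fam P D, ∑ B ∈ fam P D, (∏ l ∈ A, (l : ℝ)) * ∏ l ∈ B, (l : ℝ) :=
          Finset.sum_le_sum fun A hA => Finset.sum_le_sum fun B hB => h2 A hA B hB
      _ = (∑ A ∈ fam P D, ∏ l ∈ A, (l : ℝ)) * ∑ A ∈ fam P D, ∏ l ∈ A, (l : ℝ) :=
          (Finset.sum_mul_sum _ _ _ _).symm
      _ ≤ (D : ℝ) ^ 2 * (D : ℝ) ^ 2 := mul_le_mul h3 h3
          (Finset.sum_nonneg fun A _ => Finset.prod_nonneg fun l _ => Nat.cast_nonneg l)
          (by positivity)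
      _ = (D : ℝ) ^ 4 := by ring
  have h5 : (((range M).filter (fun w => ∀ l ∈ P, w % l ∉ Ω l)).card : ℝ) ≤
      M / (∑ s ∈ sfs P D, ∏ l ∈ s.primeFactors, ((Ω l).card : ℝ) / (l - (Ω l).card)) + (D : ℝ) ^ 4 :=
    h1.trans (by linarith)
  convert h5 using 3

end Pool.Agent.Lib.MP_ba0fa5_ag.AA.H30
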