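import Pool.Agent.Lib.MP_ba0fa5_ag.AA.IfaceA

/-!
Modules APU, APL: rough numbers in progressions (from FLU, FLL).
-/

set_option autoImplicit false

namespace Pool.Agent.Lib.MP_ba0fa5_ag.AA.H30

open scoped Classical
open Finset Real

/-- the class to be removed -/
theorem exists_class {q l c : ℕ} (hl : l.Prime) (hq : ¬ l ∣ q) : ∃ r < l, l ∣ q * r + c := by
  have hcop : q.Coprime l := ((Nat.Prime.coprime_iff_not_dvd hl).2 hq).symm
  have hl0 : 0 < l := hl.pos
  obtain ⟨k, hk⟩ := Nat.exists_mul_mod_eq_one_of_coprime hcop hl.one_lt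
  -- `q * k = 1 mod l`
  refine ⟨(k * (l - c % l)) % l, Nat.mod_lt _ hl0, ?_⟩
  have h1 : q * ((k * (l - c % l)) % l) + c ≡ 0 [MOD l] := by
    have h2 : q * ((k * (l - c % l)) % l) ≡ q * (k * (l - c % l)) [MOD l] :=
      Nat.ModEq.mul_left q (Nat.mod_modEq _ _)
    have h3 : q * (k * (l - c % l)) ≡ 1 * (l - c % l) [MOD l] := by
      rw [← mul_assoc]
      refine Nat.ModEq.mul_right _ ?_
      unfold Nat.ModEq
      rw [hk.2, Nat.mod_eq_of_lt hl.one_lt]
    have h4 : l - c % l + c ≡ 0 [MOD l] := by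
      have h5 : l - c % l + c ≡ l - c % l + c % l [MOD l] :=
        Nat.ModEq.add_left _ (Nat.mod_modEq _ _).symm
      have h6 : l - c % l + c % l = l := Nat.sub_add_cancel (Nat.mod_lt _ hl0).le
      rw [h6] at h5
      exact h5.trans (by unfold Nat.ModEq; simp)
    calc q * ((k * (l - c % l)) % l) + c ≡ 1 * (l - c % l) + c [MOD l] :=
          Nat.ModEq.add_right _ (h2.trans h3)
      _ ≡ 0 [MOD l] := by rw [one_mul]; exact h4
  exact (Nat.modEq_zero_iff_dvd).1 h1

theorem primesIn_spec {W z l : ℕ} (hW : 3 ≤ W) (hl : l ∈ primesIn W z) :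
    l.Prime ∧ 5 ≤ l ∧ W < l ∧ l ≤ z := by
  unfold primesIn at hl
  rw [Finset.mem_filter, Finset.mem_Ioc] at hl
  obtain ⟨⟨b1, b2⟩, b3⟩ := hl
  refine ⟨b3, ?_, b1, b2⟩
  by_contra hcon
  have : l = 4 := by omega
  subst this
  revert b3
  norm_num

theorem VV_nonneg {W z : ℕ} (hW : 3 ≤ W) : 0 ≤ VV W z := by
  unfold VV
  refine Finset.prod_nonneg fun l hl => ?_
  have h5 := (primesIn_spec hW hl).2.1
  have hl' : (5 : ℝ) ≤ l := by exact_mod_cast h5
  have e1 : 1 / (l : ℝ) ≤ 1 := by rw [div_le_one (by linarith)]; linarith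
  linarith

/-- APU -/
theorem apu (hF : FluStmt) : ApuStmt := by
  obtain ⟨B₀, c₀, C, hc₀, hC, hF⟩ := hF
  obtain ⟨B₁, hB₁⟩ := exists_nat_ge (log (4 * C) / c₀)
  refine ⟨max 1 (max B₀ B₁), ?_⟩
  intro W z q Y c hW hz hq hY hcop
  set B := max 1 (max B₀ B₁) with hB
  set M := Y / q + 1 with hM
  have hzq : z ^ B ≤ Y / q := by
    rw [Nat.le_div_iff_mul_le hq, mul_comm]; exact hY
  have hzM : z ^ B ≤ M := by omega
  have hzB0 : z ^ B₀ ≤ M := le_trans (Nat.pow_le_pow_right (by omega) (by rw [hB]; exact le_trans (le_max_left _ _) (le_max_right _ _))) hzM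
  choose! r hr1 hr2 using fun l (hl : l ∈ primesIn W z) =>
    exists_class (c := c % q) (primesIn_spec hW hl).1 (hcop l hl)
  have h1 := hF z M hz hzB0 (primesIn W z) (fun l => {r l}) (by
    intro l hl
    obtain ⟨a1, a2, a3, a4⟩ := primesIn_spec hW hl
    refine ⟨a1, a2, a4, ?_, by simp, by simp⟩
    intro r' hr'
    rw [Finset.mem_singleton] at hr'
    rw [hr']
    exact hr1 l hl)
  have h2 : ((Icc 1 Y).filter (fun n => n ≡ c [MOD q] ∧ Rgh z n)).card ≤
      ((range M).filter (fun w => ∀ l ∈ primesIn W z, w % l ∉ ({r l} : Finset ℕ))).card := by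
    refine Finset.card_le_card_of_injOn (fun n => n / q) ?_ ?_
    · intro n hn
      rw [Finset.mem_coe, Finset.mem_filter, Finset.mem_Icc] at hn
      obtain ⟨⟨n1, n2⟩, n3, n4⟩ := hn
      rw [Finset.mem_coe, Finset.mem_filter, Finset.mem_range]
      refine ⟨Nat.lt_succ_of_le (Nat.div_le_div_right n2), ?_⟩
      intro l hl hmem
      rw [Finset.mem_singleton] at hmem
      obtain ⟨a1, a2, a3, a4⟩ := primesIn_spec hW hl
      have hn' : n = q * (n / q) + c % q := by
        have := Nat.div_add_mod n q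
        rw [n3] at this
        exact this.symm
      have hdvd : l ∣ n := by
        have e1 : q * (n / q) + c % q ≡ q * (r l) + c % q [MOD l] := by
          refine Nat.ModEq.add_right _ (Nat.ModEq.mul_left _ ?_)
          rw [← hmem]
          exact (Nat.mod_modEq _ _).symm
        rw [← hn'] at e1
        exact (Nat.modEq_zero_iff_dvd).1 (e1.trans ((Nat.modEq_zero_iff_dvd).2 (hr2 l hl)))
      have := n4 l a1 hdvd
      omega
    · intro n hn n' hn' hnn
      rw [Finset.mem_coe, Finset.mem_filter, Finset.mem_Icc] at hn hn'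
      obtain ⟨-, n3, -⟩ := hn
      obtain ⟨-, n3', -⟩ := hn'
      have e1 := Nat.div_add_mod n q
      have e2 := Nat.div_add_mod n' q
      have e3 : n / q = n' / q := hnn
      rw [n3] at e1
      rw [n3', ← e3] at e2
      omega
  have h3 : ∏ l ∈ primesIn W z, (1 - ((({r l} : Finset ℕ)).card : ℝ) / l) = VV W z := by
    unfold VV
    refine Finset.prod_congr rfl fun l _ => ?_
    simp
  rw [h3] at h1
  have hV0 := VV_nonneg (z := z) hW
  have hz1 : (2 : ℝ) ≤ z := by exact_mod_cast hz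
  have hlz : 0 < log (z : ℝ) := Real.log_pos (by linarith)
  have hM1 : 1 ≤ M := by omega
  have hs : (B : ℝ) ≤ log M / log z := by
    rw [le_div_iff₀ hlz, ← Real.log_pow]
    refine Real.log_le_log (by positivity) ?_
    exact_mod_cast hzM
  have hE : C * exp (-c₀ * (log M / log z)) ≤ 1 / 4 := by
    have e1 : log (4 * C) / c₀ ≤ log M / log z := by
      refine hB₁.trans (le_trans ?_ hs)
      exact_mod_cast (le_trans (le_max_right B₀ B₁) (le_max_right 1 _))
    rw [div_le_iff₀ hc₀] at e1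
    have e2 : exp (-c₀ * (log M / log z)) ≤ exp (- log (4 * C)) :=
      Real.exp_le_exp.mpr (by nlinarith)
    rw [Real.exp_neg, Real.exp_log (by positivity)] at e2
    calc C * exp (-c₀ * (log M / log z)) ≤ C * (4 * C)⁻¹ := mul_le_mul_of_nonneg_left e2 hC.le
      _ = 1 / 4 := by field_simp
  have hMq : (M : ℝ) ≤ (Y : ℝ) / q + 1 := by
    rw [hM]; push_cast
    have := Nat.cast_div_le (α := ℝ) (m := Y) (n := q)
    linarith
  have hYq : (2 : ℝ) ≤ (Y : ℝ) / q := by
    have e1 : (2 : ℕ) ≤ z ^ B := le_trans hz (by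
      calc z = z ^ 1 := (pow_one z).symm
        _ ≤ z ^ B := Nat.pow_le_pow_right (by omega) (by rw [hB]; exact le_max_left _ _))
    rw [le_div_iff₀ (by exact_mod_cast hq)]
    have e2 : 2 * q ≤ Y := by
      calc 2 * q ≤ z ^ B * q := Nat.mul_le_mul_right q e1
        _ = q * z ^ B := mul_comm _ _
        _ ≤ Y := hY
    exact_mod_cast e2
  have h4 : (((Icc 1 Y).filter (fun n => n ≡ c [MOD q] ∧ Rgh z n)).card : ℝ) ≤
      (1 + C * exp (-c₀ * (log M / log z))) * M * VV W z :=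
    le_trans (by exact_mod_cast h2) h1
  refine h4.trans ?_
  have h5 : (1 + C * exp (-c₀ * (log M / log z))) * M ≤ 2 * ((Y : ℝ) / q) := by
    have hM0 : (0 : ℝ) ≤ M := Nat.cast_nonneg _
    have e1 : (1 + C * exp (-c₀ * (log M / log z))) * M ≤ (5 / 4) * M :=
      mul_le_mul_of_nonneg_right (by linarith) hM0
    linarith
  exact mul_le_mul_of_nonneg_right h5 hV0

/-- APL -/
theorem apl (hF : FllStmt) : AplStmt := by
  intro ε hε
  set ε' : ℝ := min ε 1 / 2 with hε'
  have hε'0 : 0 < ε' := by rw [hε']; have := lt_min hε one_pos; linarith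
  have hε'1 : ε' ≤ 1 / 2 := by rw [hε']; have := min_le_right ε 1; linarith
  have hε'2 : 2 * ε' ≤ ε := by rw [hε']; have := min_le_left ε 1; linarith
  obtain ⟨B₀, hF⟩ := hF ε' hε'0
  obtain ⟨B₁, hB₁⟩ := pow_unbounded_of_one_lt (1 / ε') (by norm_num : (1 : ℝ) < 2)
  refine ⟨max B₀ B₁, ?_⟩
  intro W z Y c hW hz hY hcop
  set B := max B₀ B₁ with hB
  set Q := primorial W with hQ
  have hQ0 : 0 < Q := primorial_pos W
  set M := Y / Q with hM
  have hzM : z ^ B ≤ M := by
    rw [hM, Nat.le_div_iff_mul_le hQ0, mul_comm]; exact hY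
  have hzM0 : z ^ B₀ ≤ M := le_trans (Nat.pow_le_pow_right (by omega) (le_max_left _ _)) hzM
  have hdvdQ : ∀ l : ℕ, l.Prime → l ≤ W → l ∣ Q := by
    intro l hl hlW
    rw [hQ]
    exact (Nat.Prime.dvd_primorial_iff hl).2 hlW
  have hndQ : ∀ l : ℕ, l.Prime → W < l → ¬ l ∣ Q := by
    intro l hl hlW h
    rw [hQ] at h
    have := (Nat.Prime.dvd_primorial_iff hl).1 h
    omega
  have hex : ∀ l : ℕ, ∃ r : ℕ, (l.Prime → r < l) ∧ (l ∈ primesIn W z → l ∣ Q * r + c % Q) := by
    intro l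
    by_cases hl : l ∈ primesIn W z
    · obtain ⟨a1, a2, a3, a4⟩ := primesIn_spec hW hl
      obtain ⟨r, h1, h2⟩ := exists_class (c := c % Q) a1 (hndQ l a1 a3)
      exact ⟨r, fun _ => h1, fun _ => h2⟩
    · exact ⟨0, fun h => h.pos, fun h => absurd h hl⟩
  choose r hr1 hr2 using hex
  have h1 := hF W z M hW hz hzM0 r hr1
  have hQ2 : 2 ∣ Q := hdvdQ 2 Nat.prime_two (by omega)
  have hc0 : c % Q ≠ 0 := by
    intro h
    have h2 : 2 ∣ c := hQ2.trans (Nat.dvd_of_mod_eq_zero h)
    have := Nat.dvd_gcd h2 hQ2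
    rw [hcop] at this
    omega
  have h2 : ((range M).filter (fun w => ∀ l ∈ primesIn W z, w % l ≠ r l)).card ≤
      ((Icc 1 Y).filter (fun n => n ≡ c [MOD Q] ∧ Rgh z n)).card := by
    refine Finset.card_le_card_of_injOn (fun w => Q * w + c % Q) ?_ ?_
    · intro w hw
      rw [Finset.mem_coe, Finset.mem_filter, Finset.mem_range] at hw
      obtain ⟨w1, w2⟩ := hw
      rw [Finset.mem_coe, Finset.mem_filter, Finset.mem_Icc]
      have hlt : c % Q < Q := Nat.mod_lt _ hQ0
      refine ⟨⟨?_, ?_⟩, ?_, ?_⟩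
      · show 1 ≤ Q * w + c % Q
        exact le_trans (Nat.one_le_iff_ne_zero.2 hc0) (Nat.le_add_left _ _)
      · have e1 : Q * (w + 1) ≤ Q * M := Nat.mul_le_mul_left Q w1
        have e2 : Q * M ≤ Y := Nat.mul_div_le Y Q
        show Q * w + c % Q ≤ Y
        rw [Nat.mul_add, Nat.mul_one] at e1
        omega
      · show Q * w + c % Q ≡ c [MOD Q]
        unfold Nat.ModEq
        rw [Nat.mul_add_mod, Nat.mod_mod]
      · intro l hl hdvd
        by_contra hcon
        push Not at hcon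
        have hdvd' : l ∣ Q * w + c % Q := hdvd
        rcases Nat.lt_or_ge W l with hWl | hWl
        · have hmem : l ∈ primesIn W z := by
            unfold primesIn
            rw [Finset.mem_filter, Finset.mem_Ioc]
            exact ⟨⟨hWl, hcon⟩, hl⟩
          refine w2 l hmem ?_
          have e1 : Q * w + c % Q ≡ Q * r l + c % Q [MOD l] :=
            ((Nat.modEq_zero_iff_dvd).2 hdvd').trans ((Nat.modEq_zero_iff_dvd).2 (hr2 l hmem)).symm
          have e2 : Q * w ≡ Q * r l [MOD l] := Nat.ModEq.add_right_cancel' _ e1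
          have e3 : w ≡ r l [MOD l] := by
            refine Nat.ModEq.cancel_left_of_coprime ?_ e2
            exact (Nat.Prime.coprime_iff_not_dvd hl).2 (hndQ l hl hWl)
          unfold Nat.ModEq at e3
          rw [e3, Nat.mod_eq_of_lt (hr1 l hl)]
        · have e1 : l ∣ Q := hdvdQ l hl hWl
          have e2 : l ∣ c % Q := (Nat.dvd_add_right (e1.mul_right w)).1 hdvd'
          have e3 : l ∣ c := (Nat.dvd_mod_iff e1).1 e2
          have e4 := Nat.dvd_gcd e3 e1
          rw [hcop] at e4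
          exact hl.one_lt.ne' (Nat.dvd_one.1 e4)
    · intro w _ w' _ hww
      have : Q * w + c % Q = Q * w' + c % Q := hww
      exact Nat.eq_of_mul_eq_mul_left hQ0 (by omega)
  have hV0 := VV_nonneg (z := z) hW
  have hQr : (0 : ℝ) < Q := by exact_mod_cast hQ0
  have hMY : (Y : ℝ) / Q - 1 ≤ M := by
    have e1 : Y < Q * (M + 1) := by
      rw [hM]
      exact Nat.lt_mul_div_succ Y hQ0
    rw [sub_le_iff_le_add, div_le_iff₀ hQr]
    have : (Y : ℝ) < Q * (M + 1) := by exact_mod_cast e1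
    linarith
  have hbig : 1 ≤ ε' * ((Y : ℝ) / Q) := by
    have e1 : (2 : ℝ) ^ B₁ ≤ (Y : ℝ) / Q := by
      rw [le_div_iff₀ hQr]
      have e2 : 2 ^ B₁ * Q ≤ Y := by
        calc 2 ^ B₁ * Q ≤ z ^ B₁ * Q := Nat.mul_le_mul_right Q (Nat.pow_le_pow_left hz _)
          _ ≤ z ^ B * Q := Nat.mul_le_mul_right Q (Nat.pow_le_pow_right (by omega) (le_max_right _ _))
          _ = Q * z ^ B := mul_comm _ _
          _ ≤ Y := hY
      exact_mod_cast e2
    have e3 : 1 / ε' ≤ (Y : ℝ) / Q := hB₁.le.trans e1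
    rw [div_le_iff₀ hε'0] at e3
    linarith
  have h3 : (1 - ε') * ((Y : ℝ) / Q) ≤ M := by linarith
  have hYQ0 : (0 : ℝ) ≤ (Y : ℝ) / Q := by positivity
  calc (1 - ε) * ((Y : ℝ) / Q) * VV W z ≤ ((1 - ε') * (1 - ε')) * ((Y : ℝ) / Q) * VV W z := by
        refine mul_le_mul_of_nonneg_right (mul_le_mul_of_nonneg_right ?_ hYQ0) hV0
        nlinarith
    _ = (1 - ε') * ((1 - ε') * ((Y : ℝ) / Q)) * VV W z := by ring
    _ ≤ (1 - ε') * M * VV W z := by
        refine mul_le_mul_of_nonneg_right (mul_le_mul_of_nonneg_left h3 (by linarith)) hV0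
    _ ≤ _ := h1
    _ ≤ _ := by exact_mod_cast h2

end Pool.Agent.Lib.MP_ba0fa5_ag.AA.H30
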